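import Pool.Agent.Helper30_SkewP4.Stmts

/-!
# GEX: exactness of the complex on `L ⊗ E`
-/

set_option autoImplicit false

open scoped TensorProduct

namespace Pool.Agent.SkewP4.H46

theorem rho_pow_cancel (hJ : JtStmt) (k : ℕ) (a : Lam) (h : rhoL ^ k * a = 0) : a = 0 := by
  induction k with
  | zero => rwa [pow_zero, one_mul] at h
  | succ k ih =>
    apply ih
    apply hJ.rho_cancel
    rw [← mul_assoc, ← pow_succ']
    exact h

theorem rho_pow_div (hJ : JtStmt) (k : ℕ) (a : Lam) : ∃ b : Lam, rhoL ^ k * b = a := by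
  induction k with
  | zero => exact ⟨a, by rw [pow_zero, one_mul]⟩
  | succ k ih =>
    obtain ⟨b, hb⟩ := ih
    obtain ⟨c, hc⟩ := hJ.rho_div b
    refine ⟨c, ?_⟩
    rw [pow_succ, mul_assoc, hc, hb]

/-- the derivative of `g / ρ ^ k`, multiplied by `ρ ^ (k + 1)` -/
theorem rho_d (hJ : JtStmt) {pd : Fin 5 → (L →ₗ[ℂ] L)} (hpd : PdProp pd) (k : ℕ) (a : Lam) (g : T)
    (h : rhoL ^ k * a = jT g) :
    rhoL ^ (k + 1) * dLam pd a = jT (opRho (opD g) - (k : ℂ) • opE g) := by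
  cases k with
  | zero =>
    rw [pow_zero, one_mul] at h
    rw [h, zero_add, pow_one, hJ.d pd hpd, hJ.rho, Nat.cast_zero, zero_smul, sub_zero]
  | succ k =>
    have h1 := hJ.d_rho pd hpd k a
    rw [h, hJ.d pd hpd] at h1
    set e : Lam := jT (opE ((1 : R) ⊗ₜ[ℂ] (1 : E))) with he
    have h2 : rhoL * (rhoL ^ k * (e * a)) = jT (opE g) := by
      have c1 : rhoL ^ (k + 1) * e = e * rhoL ^ (k + 1) :=
        (Commute.pow_left (hJ.rho_comm e) (k + 1) : Commute (rhoL ^ (k + 1)) e)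
      rw [← mul_assoc, ← pow_succ', ← mul_assoc, c1, mul_assoc, h]
      exact hJ.e_mul g
    have h3 : rhoL * jT (opD g) = rhoL ^ (k + 1 + 1) * dLam pd a + ((k : ℂ) + 1) • jT (opE g) := by
      rw [h1, mul_add, ← mul_assoc, ← pow_succ', mul_smul_comm, h2]
    rw [hJ.rho] at h3
    rw [map_sub, map_smul, h3]
    push_cast
    rw [add_sub_cancel_right]

theorem gex (hT : TexStmt) (hJ : JtStmt) : GexStmt := by
  intro pd hpd p q a hq hG ha
  obtain ⟨k, g, hg, hk⟩ := hG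
  have h1 := rho_d hJ hpd k a g hk
  rw [ha, mul_zero] at h1
  have h2 : opRho (opD g) - (k : ℂ) • opE g = 0 := hJ.inj (by rw [← h1, map_zero])
  rcases hT p q k g hq hg (sub_eq_zero.1 h2) with h3 | ⟨h3, g1, hg1, h4⟩
  · refine ⟨0, ⟨0, 0, Submodule.zero_mem _, by rw [mul_zero, map_zero]⟩, ?_⟩
    rw [h3, map_zero] at hk
    rw [rho_pow_cancel hJ k a hk, map_zero]
  · obtain ⟨k, rfl⟩ : ∃ k', k = k' + 1 := ⟨k - 1, by omega⟩
    rw [Nat.add_sub_cancel] at hg1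
    obtain ⟨b, hb⟩ := rho_pow_div hJ k (jT g1)
    have hk0 : ((k : ℂ) + 1) ≠ 0 := by exact_mod_cast Nat.succ_ne_zero k
    have h5 := rho_d hJ hpd k b g1 hb
    have h6 : ((k + 1 : ℕ) : ℂ) • g = opRho (opD g1) - (k : ℂ) • opE g1 := by
      rw [h4]
      push_cast
      rw [add_sub_cancel_right]
    rw [← h6, map_smul, ← hk, ← mul_smul_comm] at h5
    have h7 : dLam pd b - ((k + 1 : ℕ) : ℂ) • a = 0 := by
      apply rho_pow_cancel hJ (k + 1)
      rw [mul_sub, h5, sub_self]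
    have h8 : dLam pd b = ((k + 1 : ℕ) : ℂ) • a := sub_eq_zero.1 h7
    refine ⟨((k : ℂ) + 1)⁻¹ • b, ⟨k, ((k : ℂ) + 1)⁻¹ • g1, Submodule.smul_mem _ _ hg1, ?_⟩, ?_⟩
    · rw [mul_smul_comm, hb, map_smul]
    · rw [map_smul, h8]
      push_cast
      rw [smul_smul, inv_mul_cancel₀ hk0, one_smul]

end Pool.Agent.SkewP4.H46
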