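import Pool.Agent.Helper30_SkewP4.Sup

/-!
# TZ0: polynomial forms of type `(0,0)` are polynomials in `x`
-/

set_option autoImplicit false

open scoped TensorProduct

namespace Pool.Agent.SkewP4.H46

theorem coeff_X_pderiv (i : Ix) (r : R) (m : Ix →₀ ℕ) :
    MvPolynomial.coeff m (MvPolynomial.X i * MvPolynomial.pderiv i r) =
      (m i : ℂ) * MvPolynomial.coeff m r := by
  induction r using MvPolynomial.induction_on' with
  | monomial u a =>
    rw [MvPolynomial.X_mul_pderiv_monomial, MvPolynomial.coeff_smul, MvPolynomial.coeff_monomial]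
    split_ifs with h
    · rw [h, nsmul_eq_mul]
    · simp
  | add p q hp hq =>
    rw [map_add, mul_add, MvPolynomial.coeff_add, MvPolynomial.coeff_add, hp, hq]
    ring

theorem coeff_Ny (r : R) (m : Ix →₀ ℕ) :
    MvPolynomial.coeff m (Ny r) = (∑ j : Fin 5, (m (Sum.inr j) : ℂ)) * MvPolynomial.coeff m r := by
  have h : Ny r = ∑ j : Fin 5, MvPolynomial.X (Sum.inr j) * MvPolynomial.pderiv (Sum.inr j) r := by
    unfold Ny
    rw [LinearMap.sum_apply]
    rfl
  rw [h, MvPolynomial.coeff_sum, Finset.sum_mul]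
  exact Finset.sum_congr rfl fun j _ => coeff_X_pderiv _ _ _

theorem exists_x (r : R) (h : Ny r = 0) : ∃ f : S, MvPolynomial.rename Sum.inl f = r := by
  apply MvPolynomial.exists_rename_eq_of_vars_subset_range r Sum.inl Sum.inl_injective
  intro v hv
  cases v with
  | inl j => exact ⟨j, rfl⟩
  | inr j =>
    exfalso
    obtain ⟨m, hm, hj⟩ := (MvPolynomial.mem_vars_iff_mem_support _).1 (Finset.mem_coe.1 hv)
    have h1 := coeff_Ny r m
    rw [h, MvPolynomial.coeff_zero] at h1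
    have h2 : (∑ j : Fin 5, (m (Sum.inr j) : ℂ)) = 0 := by
      rcases mul_eq_zero.1 h1.symm with h3 | h3
      · exact h3
      · exact absurd h3 (MvPolynomial.mem_support_iff.1 hm)
    have h3 : (∑ j : Fin 5, m (Sum.inr j)) = 0 := by exact_mod_cast h2
    have h4 := (Finset.sum_eq_zero_iff.1 h3) j (Finset.mem_univ j)
    exact (Finsupp.mem_support_iff.1 hj) h4

/-- elements of type `(0,0)` -/
theorem exists_R (hE : Ext2Stmt) (z : T) (hz : z ∈ TP R 0 0) : ∃ r : R, z = r ⊗ₜ[ℂ] (1 : E) := by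
  obtain ⟨w, rfl⟩ := hz
  induction w using TensorProduct.induction_on with
  | zero => exact ⟨0, by rw [map_zero, TensorProduct.zero_tmul]⟩
  | tmul r w =>
    obtain ⟨c, hc⟩ := hE.mem_zero w.1 w.2
    refine ⟨c • r, ?_⟩
    rw [LinearMap.lTensor_tmul, Submodule.subtype_apply, hc, Algebra.algebraMap_eq_smul_one,
      TensorProduct.tmul_smul, TensorProduct.smul_tmul']
  | add a b ha hb =>
    obtain ⟨r, hr⟩ := ha
    obtain ⟨s, hs⟩ := hb
    exact ⟨r + s, by rw [map_add, hr, hs, TensorProduct.add_tmul]⟩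

/-- `r ⊗ 1 = 0` implies `r = 0` -/
theorem tmul_one_inj (r : R) (h : r ⊗ₜ[ℂ] (1 : E) = 0) : r = 0 := by
  have h1 := congrArg (fun t => TensorProduct.rid ℂ R
    (LinearMap.lTensor R (ExteriorAlgebra.algebraMapInv (R := ℂ) (M := Ix → ℂ)).toLinearMap t)) h
  simpa using h1

theorem tz0 (hE : Ext2Stmt) : Tz0Stmt := by
  intro z hz
  obtain ⟨⟨h1, _⟩, h2⟩ := hz
  obtain ⟨r, rfl⟩ := exists_R hE z h1
  have h3 : opNy (r ⊗ₜ[ℂ] (1 : E)) = 0 := by
    have h4 := LinearMap.mem_ker.1 h2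
    simpa using h4
  have h5 : Ny r ⊗ₜ[ℂ] (1 : E) = 0 := by
    rw [← h3]
    exact (LinearMap.rTensor_tmul _ _ _ _).symm
  obtain ⟨f, hf⟩ := exists_x r (tmul_one_inj _ h5)
  exact ⟨f, by rw [hf]⟩

end Pool.Agent.SkewP4.H46
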